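import Pool.Agent.H257R2.OS.F

/-!
# The unit-time open shop with release dates and weighted late jobs, parameterized by the machines

`O | p_ij = 1, r_j | ∑ w_j U_j` is `W[1]`-hard with respect to the number `m` of machines, so the
answer to the question is negative: it is not fixed-parameter tractable in `m` unless
`FPT = W[1]`.  The reduction from Clique (with `m = 2 k + 7` machines) is polynomial-time.
-/

namespace Pool.Agent.Results.MP_02da2b_lc.OpenShopW1Hard

open Pool.Agent.NPC Pool.Agent.H633R2 Pool.Agent.H257R2.OS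

/-- **The decision version of `O | p_ij = 1, r_j | ∑ w_j U_j` (instance `((m, jobs), B)`) is
`W[1]`-hard in the number `m` of machines, for real and for integer start times (`k`-Clique reduces
to it in polynomial time with at most `2 k + 7` machines); if the minimum of `∑ w_j U_j` can be
computed in time `f(m) * |I|^O(1)`, then every problem in `W[1]` is fixed-parameter tractable.** -/
theorem result :
    (∃ f : List (List Bool) × ℕ → (ℕ × List (ℕ × ℤ × ℕ)) × ℕ, Poly f ∧
      ∀ x, (HasClique x ↔ OpenShop (f x)) ∧ (f x).1.1 ≤ 2 * x.2 + 7) ∧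
    W1Hard (fun I : (ℕ × List (ℕ × ℤ × ℕ)) × ℕ => I.1.1) OpenShop ∧
    W1Hard (fun I : (ℕ × List (ℕ × ℤ × ℕ)) × ℕ => I.1.1) OpenShopInt ∧
    (FptTime (fun I : ℕ × List (ℕ × ℤ × ℕ) => I.1) opt →
      ∀ (α : Type) [TEnc α] (κ : α → ℕ) (P : α → Prop), InW1 κ P → IsFpt κ P) :=
  ⟨reduction, w1Hard, w1Hard_int, fun h _ _ _ _ hP => opt_collapse h hP⟩

end Pool.Agent.Results.MP_02da2b_lc.OpenShopW1Hard
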